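import Pool.Agent.Y121.ZI.RatLaw

/-!
# MP_4ca46c_ag: the index law for the Künneth components of the diagonal

For every smooth projective variety `X`: the dimension of the space of classes on `X^{2n}` which are
generated by cycles and the Künneth components `π_i` of the diagonal of `X`, divided by the rank of
the group of cycles on `X^{2n}` modulo numerical equivalence, converges to some `N` in
`{1, 2, 3, …, ∞}`; `N = 1` if and only if all `π_i` are classes of rational cycles (conjecture C for
`X`) and homological and numerical equivalence agree on all powers `X^n`; if `N` is finite, the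
latter holds and all these classes are generated by cycles and at most `N - 1` of them.
-/

universe u v w

namespace Pool.Agent.Results.MP_4ca46c_ag.IndexLaw

open Pool.Agent.Y121.ZI Pool.Agent.Y121.ZI.NCTheory

/-- The index law for the classes generated by cycles and the Künneth components. -/
theorem result {K : Type u} [Field K] [CharZero K] (T : WeilTheory.{u, v, w} K) (X : T.Obj)
    [Nontrivial (T.H X)] :
    ∃ N : ℕ∞, 1 ≤ N ∧ T.PowIndex (T.classesOf X (Set.range (T.pr X))) X N ∧
      (N = 1 ↔ (∀ i, RationalIn (T.cor X X) (T.pr X i)) ∧ ∀ n, T.StdD (T.pow X n)) ∧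
      (N ≠ ⊤ → (∀ n, T.StdD (T.pow X n)) ∧
        T.PowGenerated (T.classesOf X (Set.range (T.pr X))) X N) := by
  obtain ⟨N, h1, h2, h3, h4⟩ :=
    NCTheory.pow_law (Ops.cls T.toNCTheory X (Set.range (T.pr X))) T.dual X
  refine ⟨N, h1, h2, ?_, h4⟩
  rw [h3]
  constructor
  · rintro ⟨h5, h6⟩
    refine ⟨fun i => ?_, h6⟩
    have h7 : ∀ m n, T.StdD (T.bi X m n) :=
      fun m n => (Ret.of_iso (oiso_bi T.dual X m n)).std (h6 _)
    refine rationalIn_of (Ops.Nn_self h7) ?_ (WeilTheory.rat_pr X i)
    exact Ops.iff_ops.1 (fun n => (Ret.of_iso (oiso_bi T.dual X n n)).le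
      (Ops.cls T.toNCTheory X (Set.range (T.pr X))) (h5 _)) _ ⟨i, rfl⟩
  · rintro ⟨h5, h6⟩
    refine ⟨fun n => (ret_pow_bi T.dual X n).le
      (Ops.cls T.toNCTheory X (Set.range (T.pr X))) (Ops.iff_ops.2 ?_ n), h6⟩
    rintro _ ⟨i, rfl⟩
    exact mem_S_of_rational (h5 i)

end Pool.Agent.Results.MP_4ca46c_ag.IndexLaw
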