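import Pool.Agent.H447R3.KuB
import Pool.Agent.TH133.PW.Kun

/-!
# The Kunneth projectors: a numerical form and a pointwise form of the conjecture C

Let `W` be a Weil cohomology theory with coefficient field `K` on a class of smooth proper varieties
over a field of any characteristic, `X` a variety of dimension `n` in the class and `π_i` the Kunneth
components of the diagonal.

**Numerical form.** The conjecture C holds for `X` (all `π_i` are classes of cycles) if and only if
there are cycles `z_i` of codimension `n` on `X × X` with the same intersection numbers as `π_i` with
all cycles of codimension `n`, which are orthogonal projectors up to numerical equivalence. No case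
of the conjecture D is assumed.

**Pointwise form.** Let `𝒲` be a nonempty set of theories such that for every cycle of codimension `n`
on `X × X` the traces on the `H^j(X)` for the theories in `𝒲` are the same rational numbers (for
example: one theory for which all these traces are rational; or, over a finite field, all theories).
For every `i` the following are equivalent:

1. ONE cycle induces the projector onto `H^i(X)` for all theories in `𝒲`;
2. for one theory in `𝒲` and all `y` in `H^i(X)`, `y'` in `H^j(X)`, `j ≠ i`, there is a combination of
   correspondences, which may depend on `y` and `y'`, fixing `y` and killing `y'`;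
3. for one theory in `𝒲`: if `y × w + y' × w'` is orthogonal to all cycles of codimension `n` on
   `X × X`, for classes `y`, `w`, `y'`, `w'` of degrees `i`, `2 n - i`, `j`, `2 n - j`, `j ≠ i`, then
   `tr (y w) = 0`;
4. for one theory in `𝒲` every subspace of `H(X)` stable under all correspondences of degree zero is
   stable under the projector onto `H^i(X)`.

The proofs are in the starting files `Pool/Agent/H447R3/KuB.lean` and `Pool/Agent/TH133/PW/Kun.lean`,
whose theorems had not been handed in.
-/

open CategoryTheory AlgebraicGeometry

universe u v

namespace Pool.Agent.Results.MP_4ca46c_ag.NumericalProjectors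

open Pool.Agent.H914 Pool.Agent.H447 Pool.Agent.TH133.PW VarClass Obj WeilCohomology

/-- **A numerical form and a pointwise form of the conjecture C.** -/
theorem result {k : Type u} [Field k] {𝒱 : VarClass k} {ops : CycleOps 𝒱} (X : 𝒱.Obj) :
    (∀ W : WeilCohomology.{u, v} ops, KunnethStd W X ↔ KunnethNum W X) ∧
    ∀ 𝒲 : Set (WeilCohomology.{u, v} ops), 𝒲.Nonempty → SameTracesAll 𝒲 X → ∀ i,
      List.TFAE [OneProjectorForAll 𝒲 X i, SeparatesForOne 𝒲 X i, DetectsForOne 𝒲 X i,
        SplitForOne 𝒲 X i] :=
  ⟨fun _ => kunneth_iff_num, fun _ hne h i => kunneth_one_tfae hne h i⟩

end Pool.Agent.Results.MP_4ca46c_ag.NumericalProjectors
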