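import Pool.Agent.Y99.GH.Four

/-!
# The Kunneth standard conjecture is the algebraicity of one Kunneth projector

Let `W` be a Weil cohomology theory on a class of smooth proper varieties such that the squares
`X × X` have generic sections (see `HasSections` and `IsGenericSection`). Then the Kunneth standard
conjecture for all varieties, the sign conjecture for all varieties and the Lefschetz standard
conjecture for all varieties are equivalent. They are also equivalent to the algebraicity of the one
Kunneth projector onto `H^(dim X - r)(X)` for all `X` of even dimension, and to the same for all `X`
of odd dimension, for any fixed `r ≥ 0`; for example, to the algebraicity of the middle Kunneth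
projector of all odd-dimensional varieties.
-/

open CategoryTheory AlgebraicGeometry

universe u v

namespace Pool.Agent.Results.MP_4ca46c_ag.OneProjector

open Pool.Agent.H914 Pool.Agent.Y99.GH

/-- **The conjecture C for all varieties is equivalent to the sign conjecture, to the conjecture B,
and to the algebraicity of one Kunneth projector for all varieties of one parity.** -/
theorem result {k : Type u} [Field k] {𝒱 : VarClass k} {ops : CycleOps 𝒱}
    (W : WeilCohomology.{u, v} ops) (hW : HasSections W) :
    List.TFAE [AllC W, AllSign W, AllB W] ∧
    ∀ e r, e ≤ 1 → (AllC W ↔ AllAt W e r) :=
  main_four hW

end Pool.Agent.Results.MP_4ca46c_ag.OneProjector
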